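import Mathlib

/-!
# The fixed locus of one parabolic automorphism is isotropic

`Lam = H^2(X, Z)` with the Beauville-Bogomolov form `q`, `L` a nef class with `q(L) = 0`, `A` an
ample class.  `res : Lam → R` is the restriction to (a resolution of) a closed subvariety `F` of
`X`, with values in a torsion free group.

* `res_of_fixed`: if `g` is the parabolic automorphism given by `L` and `b` and all powers of `g` are
  the identity on `F`, then `L` and `b` restrict to zero on `F`.
* `sigma_zero`: if `L` restricts to zero on `F`, then the symplectic form restricts to zero on `F`.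
  The published input is the inequality `yau`: for every ample `w` there is a hyperkaehler metric
  with Kaehler class `w` (YAU); for it the form `(q(w) / q(Re sigma))^(1/2) sigma` has constant
  norm, so that (WIRTINGER) `q(w) S(w) ≤ C V(w)` with `S(w)` the integral over `F` of
  `sigma sigma-bar w^(a-2)` and `V(w)` the integral of `w^a`, `a = dim F`.
-/

namespace Pool.Agent.H88.HK

/-- `L` and `b` are trivial on the fixed locus of the parabolic automorphism. -/
theorem res_of_fixed {Lam R : Type*} [AddCommGroup Lam] [AddCommGroup R]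
    (tf : ∀ (n : ℤ) (y : R), n • y = 0 → n = 0 ∨ y = 0)
    (q : Lam → Lam → ℤ) (q_add : ∀ x y z, q (x + y) z = q x z + q y z)
    (q_symm : ∀ x y, q x y = q y x) (res : Lam →+ R) (L b x : Lam)
    (hb : q b b ≠ 0) (hx : q L x ≠ 0)
    (fixed : ∀ k : ℕ, res (x + (2 * q L x) • (k • b) -
      (2 * q (k • b) x + 2 * q (k • b) (k • b) * q L x) • L) = res x) :
    res L = 0 ∧ res b = 0 := by
  have h1 := fixed 1
  have h2 := fixed 2
  have e2 : (2 : ℕ) • b = b + b := two_nsmul b
  have a1 : q (b + b) x = 2 * q b x := by rw [q_add]; ring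
  have a2 : q (b + b) (b + b) = 4 * q b b := by
    rw [q_add, q_symm b (b + b), q_add]; ring
  rw [one_nsmul] at h1
  rw [e2, a1, a2] at h2
  simp only [map_add, map_sub, map_zsmul, smul_add] at h1 h2
  have k1 : (2 * q L x) • res b - (2 * q b x + 2 * q b b * q L x) • res L = 0 := by
    have : res x + ((2 * q L x) • res b - (2 * q b x + 2 * q b b * q L x) • res L)
        = res x + 0 := by rw [add_zero, ← add_sub_assoc]; exact h1
    exact add_left_cancel this
  have k2 : ((2 * q L x) • res b + (2 * q L x) • res b) -
      (2 * (2 * q b x) + 2 * (4 * q b b) * q L x) • res L = 0 := by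
    have : res x + (((2 * q L x) • res b + (2 * q L x) • res b) -
        (2 * (2 * q b x) + 2 * (4 * q b b) * q L x) • res L) = res x + 0 := by
      rw [add_zero, ← add_sub_assoc]; exact h2
    exact add_left_cancel this
  have hL : res L = 0 := by
    have h : (4 * q b b * q L x) • res L = 0 := by
      have e : (4 * q b b * q L x) • res L =
          ((2 * q L x) • res b - (2 * q b x + 2 * q b b * q L x) • res L) +
          ((2 * q L x) • res b - (2 * q b x + 2 * q b b * q L x) • res L) -
          (((2 * q L x) • res b + (2 * q L x) • res b) -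
            (2 * (2 * q b x) + 2 * (4 * q b b) * q L x) • res L) := by
        module
      rw [e, k1, k2]; simp
    rcases tf _ _ h with h | h
    · exfalso
      rcases mul_eq_zero.1 h with h | h
      · rcases mul_eq_zero.1 h with h | h
        · norm_num at h
        · exact hb h
      · exact hx h
    · exact h
  refine ⟨hL, ?_⟩
  rw [hL, smul_zero, sub_zero] at k1
  rcases tf _ _ k1 with h | h
  · exfalso
    rcases mul_eq_zero.1 h with h | h
    · norm_num at h
    · exact hx h
  · exact h

/-- If `L` restricts to zero on `F`, then so does the symplectic form. -/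
theorem sigma_zero {Lam R : Type*} [AddCommGroup Lam] [AddCommGroup R]
    (q : Lam → Lam → ℤ) (q_add : ∀ x y z, q (x + y) z = q x z + q y z)
    (q_symm : ∀ x y, q x y = q y x) (res : Lam →+ R) (Ample : Set Lam) (A L : Lam)
    (amp : ∀ c : ℕ, A + c • L ∈ Ample) (hL : q L L = 0) (hAL : 0 < q A L) (hres : res L = 0)
    (S V : Lam → ℝ) (S_res : ∀ w w', res w = res w' → S w = S w')
    (V_res : ∀ w w', res w = res w' → V w = V w')
    (S_nonneg : ∀ w ∈ Ample, 0 ≤ S w)
    (yau : ∃ C : ℝ, ∀ w ∈ Ample, (q w w : ℝ) * S w ≤ C * V w) : S A = 0 := by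
  obtain ⟨C, hC⟩ := yau
  have hA : A ∈ Ample := by simpa using amp 0
  have h0 := S_nonneg A hA
  have hq : ∀ c : ℕ, q (A + c • L) (A + c • L) = q A A + 2 * c * q A L := by
    intro c
    have hs : ∀ (n : ℕ) (z : Lam), q (n • L) z = n * q L z := by
      intro n z
      induction n with
      | zero =>
        have : q (0 + 0) z = q 0 z + q 0 z := q_add 0 0 z
        simp only [add_zero] at this
        simp only [zero_smul, Nat.cast_zero, zero_mul]
        linarith
      | succ n ih => rw [succ_nsmul, q_add, ih]; push_cast; ring
    rw [q_add, hs, q_symm A (A + c • L), q_symm L (A + c • L), q_add, q_add, hs, hs, hL,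
      q_symm L A]
    ring
  have key : ∀ c : ℕ, ((q A A : ℝ) + 2 * c * (q A L : ℝ)) * S A ≤ C * V A := by
    intro c
    have h := hC _ (amp c)
    have e : res (A + c • L) = res A := by rw [map_add, map_nsmul, hres, smul_zero, add_zero]
    rw [S_res _ _ e, V_res _ _ e, hq c] at h
    push_cast at h
    exact h
  by_contra hne
  have hpos : 0 < S A := lt_of_le_of_ne h0 (Ne.symm hne)
  have hALr : (0 : ℝ) < (q A L : ℝ) := by exact_mod_cast hAL
  obtain ⟨c, hc⟩ := exists_nat_gt ((C * V A - (q A A : ℝ) * S A) / (2 * (q A L : ℝ) * S A))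
  have hd : (0 : ℝ) < 2 * (q A L : ℝ) * S A := by positivity
  rw [div_lt_iff₀ hd] at hc
  have := key c
  nlinarith

end Pool.Agent.H88.HK
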